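import Pool.Agent.Helper52.NF.St

set_option autoImplicit false

namespace Pool.Agent.Helper10.NF

open Pool.Agent.Helper52.NF Finset

theorem l1aux {ε N : Type} [DecidableEq ε] [DecidableEq N] (α β : ε → N) :
    ∀ (n : ℕ) (P : Finset ε), P.card = n → ∀ u : N,
    bd α β P u = 1 → ∃ P₁ ⊆ P, ∃ v, v ≠ u ∧ bd α β P v = 1 ∧
      ∀ x, bd α β P₁ x = pt u x + pt v x := by
  intro n
  induction n using Nat.strong_induction_on with
  | _ n ih =>
  intro P hn u hu
  have hne : bd α β P u ≠ 0 := by rw [hu]; exact one_ne_zero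
  obtain ⟨e, heP, he⟩ := exists_at α β hne
  -- the other end
  obtain ⟨z, hzu, hz⟩ : ∃ z, z ≠ u ∧ ∀ x, pt (α e) x + pt (β e) x = pt u x + pt z x := by
    rcases he with ⟨h1, h2⟩ | ⟨h1, h2⟩
    · exact ⟨β e, h2, fun x => by rw [h1]⟩
    · exact ⟨α e, h1, fun x => by rw [h2]; ring⟩
  by_cases hPz : bd α β P z = 1
  · refine ⟨{e}, Finset.singleton_subset_iff.mpr heP, z, hzu, hPz, fun x => ?_⟩
    rw [bd_singleton, hz]
  · have hP' : ∀ x, bd α β (P.erase e) x = bd α β P x + (pt u x + pt z x) := by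
      intro x
      rw [bd_erase α β heP, hz]
    have hPz0 : bd α β P z = 0 := (z01 _).resolve_right hPz
    have h1 : bd α β (P.erase e) z = 1 := by
      rw [hP', hPz0, pt_ne hzu, pt_self]; ring
    have h2 : bd α β (P.erase e) u = 0 := by
      rw [hP', hu, pt_self, pt_ne hzu.symm, add_zero]; exact zz 1
    have hlt : (P.erase e).card < n := by
      rw [← hn]; exact Finset.card_erase_lt_of_mem heP
    obtain ⟨Q, hQ, v, hvz, hv1, hQb⟩ := ih _ hlt (P.erase e) rfl z h1
    have hvu : v ≠ u := by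
      rintro rfl
      rw [h2] at hv1
      exact one_ne_zero hv1.symm
    have heQ : e ∉ Q := fun h => (Finset.notMem_erase e P) (hQ h)
    refine ⟨insert e Q, ?_, v, hvu, ?_, fun x => ?_⟩
    · exact Finset.insert_subset heP (hQ.trans (Finset.erase_subset _ _))
    · have h3 := hP' v
      rw [hv1, pt_ne hvu, pt_ne hvz, add_zero, add_zero] at h3
      exact h3.symm
    · rw [bd_insert α β heQ, hQb, hz]
      have := zz (pt z x)
      linear_combination this

theorem hL1 : StL1 := by
  intro ε N _ _ α β P u hu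
  exact l1aux α β P.card P rfl u hu

end Pool.Agent.Helper10.NF
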